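import Mathlib

/-!
# Generic nowhere differentiability along all `C¹` curves (MP_3b0c1c_an, Q1)

For every bounded open `U ⊆ ℝ^d` the set of continuous functions on the closure of `U` whose
restriction to every unit speed `C¹` curve in `U` is nowhere differentiable contains a dense `G_δ`.

Idea: a generic `f` is, for each coordinate `i` and each `k`, very close to a function
`g + (ε / 2) cos (2 π x_i / r)` with `r` tiny compared with `ε` and with the modulus of continuity
of `g`. A curve with derivative `v ≠ 0` at `t`, say `v_i ≠ 0`, crosses a full period of this cosine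
in a time comparable with `r`, so the composition changes by at least `(k + 1) r` in that time.
-/

set_option autoImplicit false

open Set Metric Topology Filter

namespace Pool.Agent.Results.MP_3b0c1c_an.GenericAlongCurves

/-- The value at `x` of a continuous function on the closure of `U` (and `0` off the closure). -/
noncomputable def value {d : ℕ} {U : Set (EuclideanSpace ℝ (Fin d))} (f : C(closure U, ℝ))
    (x : EuclideanSpace ℝ (Fin d)) : ℝ :=
  open Classical in if h : x ∈ closure U then f ⟨x, h⟩ else 0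

/-- `c` restricted to `I` is a unit speed `C¹` curve in `U`: `I` is an interval of positive length,
`c` is `C¹` on `I` with values in `U`, and its derivative (one-sided at endpoints of `I` belonging
to `I`) has norm one at every point of `I`. -/
structure IsUnitSpeedCurve {d : ℕ} (U : Set (EuclideanSpace ℝ (Fin d))) (I : Set ℝ)
    (c : ℝ → EuclideanSpace ℝ (Fin d)) : Prop where
  interval : I.OrdConnected
  nontrivial : I.Nontrivial
  mapsTo : MapsTo c I U
  contDiffOn : ContDiffOn ℝ 1 c I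
  unitSpeed : ∀ t ∈ I, ‖derivWithin c I t‖ = 1

/-- The set `𝒩(U)` of the continuous functions on the closure of `U` whose restriction to every unit
speed `C¹` curve in `U` is nowhere differentiable. -/
def nowhereSet {d : ℕ} (U : Set (EuclideanSpace ℝ (Fin d))) : Set C(closure U, ℝ) :=
  {f | ∀ (I : Set ℝ) (c : ℝ → EuclideanSpace ℝ (Fin d)), IsUnitSpeedCurve U I c →
    ∀ t ∈ I, ¬ DifferentiableWithinAt ℝ (fun s => value f (c s)) I t}

lemma value_of_mem {d : ℕ} {U : Set (EuclideanSpace ℝ (Fin d))} (f : C(closure U, ℝ))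
    {x : EuclideanSpace ℝ (Fin d)} (h : x ∈ closure U) : value f x = f ⟨x, h⟩ := by
  simp [value, h]

/-- functions oscillating by more than `(k + 1) r` between nearby crests and troughs of
`cos (2 π x_i / r)` -/
def osc {d : ℕ} (U : Set (EuclideanSpace ℝ (Fin d))) (i : Fin d) (k : ℕ) (r : ℝ) :
    Set C(closure U, ℝ) :=
  {f | ∀ a b : closure U, dist a b ≤ (k + 1) * r → Real.cos (2 * Real.pi * (a.1 i / r)) = 1 →
    Real.cos (2 * Real.pi * (b.1 i / r)) = -1 → (k + 1) * r < f a - f b}

/-- the open set -/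
def opn {d : ℕ} (U : Set (EuclideanSpace ℝ (Fin d))) (i : Fin d) (k : ℕ) :
    Set C(closure U, ℝ) :=
  ⋃ r ∈ Ioo (0 : ℝ) (1 / (k + 1)), interior (osc U i k r)

lemma isOpen_opn {d : ℕ} (U : Set (EuclideanSpace ℝ (Fin d))) (i : Fin d) (k : ℕ) :
    IsOpen (opn U i k) :=
  isOpen_biUnion fun _ _ => isOpen_interior

/-- the perturbing function -/
noncomputable def wave {d : ℕ} (U : Set (EuclideanSpace ℝ (Fin d))) (i : Fin d) (r : ℝ) :
    C(closure U, ℝ) where
  toFun x := Real.cos (2 * Real.pi * (x.1 i / r))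
  continuous_toFun := by
    have h1 : Continuous fun x : closure U => x.1 i := by fun_prop
    have h2 : Continuous fun x : closure U => x.1 i / r := h1.div_const r
    exact Real.continuous_cos.comp (continuous_const.mul h2)

lemma dense_opn {d : ℕ} (U : Set (EuclideanSpace ℝ (Fin d))) [CompactSpace (closure U)]
    (i : Fin d) (k : ℕ) : Dense (opn U i k) := by
  rw [Metric.dense_iff]
  intro g ε hε
  have hk : (0 : ℝ) < k + 1 := by positivity
  obtain ⟨δ, hδ, hg⟩ := Metric.uniformContinuous_iff.1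
    (CompactSpace.uniformContinuous_of_continuous g.continuous) (ε / 4) (by positivity)
  obtain ⟨r, hr0, hr⟩ : ∃ r : ℝ, 0 < r ∧ r < min (1 / ((k : ℝ) + 1)) (min (δ / ((k : ℝ) + 1))
      (ε / (4 * ((k : ℝ) + 1)))) := exists_between (by positivity)
  have hr1 : r < 1 / ((k : ℝ) + 1) := hr.trans_le (min_le_left _ _)
  have hr2 : (k + 1) * r < δ := by
    have := hr.trans_le ((min_le_right _ _).trans (min_le_left _ _))
    rw [lt_div_iff₀ hk] at this
    linarith
  have hr3 : (k + 1) * r < ε / 4 := by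
    have := hr.trans_le ((min_le_right _ _).trans (min_le_right _ _))
    rw [lt_div_iff₀ (by positivity)] at this
    linarith
  let f : C(closure U, ℝ) := g + (ε / 2) • wave U i r
  have hfa : ∀ x, f x = g x + (ε / 2) * Real.cos (2 * Real.pi * (x.1 i / r)) := fun x => rfl
  refine ⟨f, ?_, ?_⟩
  · rw [Metric.mem_ball]
    have : dist f g ≤ ε / 2 := by
      rw [ContinuousMap.dist_le (by positivity)]
      intro x
      rw [Real.dist_eq, hfa]
      have := Real.abs_cos_le_one (2 * Real.pi * (x.1 i / r))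
      rw [add_sub_cancel_left, abs_mul, abs_of_pos (by positivity : (0:ℝ) < ε / 2)]
      calc ε / 2 * |Real.cos (2 * Real.pi * (x.1 i / r))| ≤ ε / 2 * 1 := by gcongr
        _ = ε / 2 := by ring
    linarith
  · refine mem_biUnion (x := r) ⟨hr0, hr1⟩ ?_
    rw [mem_interior_iff_mem_nhds, Metric.mem_nhds_iff]
    refine ⟨ε / 8, by positivity, fun f' hf' a b hab ha hb => ?_⟩
    have h1 : |f' a - f a| < ε / 8 := by
      have := (ContinuousMap.dist_apply_le_dist (f := f') (g := f) a).trans_lt hf'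
      rwa [Real.dist_eq] at this
    have h2 : |f' b - f b| < ε / 8 := by
      have := (ContinuousMap.dist_apply_le_dist (f := f') (g := f) b).trans_lt hf'
      rwa [Real.dist_eq] at this
    have h3 : |g a - g b| < ε / 4 := by
      have := hg (hab.trans_lt hr2)
      rwa [Real.dist_eq] at this
    rw [hfa, ha] at h1
    rw [hfa, hb] at h2
    rw [abs_lt] at h1 h2 h3
    linarith [h1.1, h1.2, h2.1, h2.2, h3.1, h3.2]

/-- an interval of length at least `r` contains a crest and a trough -/
lemma exists_crest {A B r : ℝ} (hr : 0 < r) (hAB : r ≤ B - A) :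
    (∃ x ∈ Icc A B, Real.cos (2 * Real.pi * (x / r)) = 1) ∧
    (∃ x ∈ Icc A B, Real.cos (2 * Real.pi * (x / r)) = -1) := by
  constructor
  · refine ⟨⌈A / r⌉ * r, ⟨?_, ?_⟩, ?_⟩
    · have := Int.le_ceil (A / r)
      rwa [div_le_iff₀ hr] at this
    · have := Int.ceil_lt_add_one (A / r)
      have h2 : (⌈A / r⌉ : ℝ) * r < (A / r + 1) * r := by gcongr
      have h3 : (A / r + 1) * r = A + r := by field_simp
      linarith
    · rw [mul_div_assoc, div_self hr.ne', mul_one, mul_comm]
      exact Real.cos_int_mul_two_pi _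
  · refine ⟨(⌈A / r - 1 / 2⌉ + 1 / 2) * r, ⟨?_, ?_⟩, ?_⟩
    · have := Int.le_ceil (A / r - 1 / 2)
      have h2 : A / r ≤ ⌈A / r - 1 / 2⌉ + 1 / 2 := by linarith
      rwa [div_le_iff₀ hr] at h2
    · have := Int.ceil_lt_add_one (A / r - 1 / 2)
      have h1 : (⌈A / r - 1 / 2⌉ : ℝ) + 1 / 2 < A / r + 1 := by linarith
      have h2 : ((⌈A / r - 1 / 2⌉ : ℝ) + 1 / 2) * r < (A / r + 1) * r :=
        mul_lt_mul_of_pos_right h1 hr
      have h3 : (A / r + 1) * r = A + r := by field_simp
      linarith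
    · have : 2 * Real.pi * (((⌈A / r - 1 / 2⌉ : ℝ) + 1 / 2) * r / r)
          = ⌈A / r - 1 / 2⌉ * (2 * Real.pi) + Real.pi := by
        field_simp
      rw [this]
      exact Real.cos_int_mul_two_pi_add_pi _

set_option maxHeartbeats 4000000 in
lemma key {d : ℕ} {U : Set (EuclideanSpace ℝ (Fin d))} {f : C(closure U, ℝ)}
    (hf : ∀ i k, f ∈ opn U i k) {I : Set ℝ} {c : ℝ → EuclideanSpace ℝ (Fin d)}
    (hc : IsUnitSpeedCurve U I c) {t : ℝ} (ht : t ∈ I) :
    ¬ DifferentiableWithinAt ℝ (fun s => value f (c s)) I t := by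
  intro hF
  obtain ⟨L, hL⟩ : ∃ L, HasDerivWithinAt (fun s => value f (c s)) L I t :=
    ⟨_, hF.hasDerivWithinAt⟩
  have hcd : HasDerivWithinAt c (derivWithin c I t) I t :=
    ((hc.contDiffOn.differentiableOn (by norm_num)) t ht).hasDerivWithinAt
  set v := derivWithin c I t with hv
  have hv1 : ‖v‖ = 1 := hc.unitSpeed t ht
  obtain ⟨i, hi⟩ : ∃ i, v i ≠ 0 := by
    by_contra h
    push Not at h
    have : v = 0 := by ext i; simpa using h i
    rw [this] at hv1
    simp at hv1
  set m := |v i| with hm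
  have hm0 : 0 < m := abs_pos.2 hi
  have hm1 : m ≤ 1 := by
    have := PiLp.norm_apply_le v i
    rw [hv1, Real.norm_eq_abs] at this
    exact this
  obtain ⟨t', ht', htt'⟩ := hc.nontrivial.exists_ne t
  -- little o estimates
  obtain ⟨η, hη, hest⟩ : ∃ η > 0, ∀ u ∈ I, |u - t| < η →
      ‖c u - c t - (u - t) • v‖ ≤ (m / 2) * |u - t| ∧
      |value f (c u) - value f (c t) - (u - t) * L| ≤ |u - t| := by
    have h1 := (hasDerivWithinAt_iff_isLittleO.1 hcd).def (by positivity : 0 < m / 2)
    have h2 := (hasDerivWithinAt_iff_isLittleO.1 hL).def (by norm_num : (0 : ℝ) < 1)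
    have h3 := h1.and h2
    rw [eventually_nhdsWithin_iff, Metric.eventually_nhds_iff] at h3
    obtain ⟨η, hη, h⟩ := h3
    refine ⟨η, hη, fun u hu hut => ?_⟩
    have := h (by rwa [Real.dist_eq]) hu
    simpa [Real.norm_eq_abs] using this
  -- choose k
  obtain ⟨k, hk⟩ : ∃ k : ℕ, max (8 / m) (max (4 * (|L| + 1) / m)
      (max (2 / (m * η)) (2 / (m * |t' - t|)))) < k := exists_nat_gt _
  have htpos : 0 < |t' - t| := abs_pos.2 (sub_ne_zero.2 htt')
  have hk1 : 8 / m < k := (le_max_left _ _).trans_lt hk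
  have hk2 : 4 * (|L| + 1) / m < k := ((le_max_left _ _).trans (le_max_right _ _)).trans_lt hk
  have hk3 : 2 / (m * η) < k :=
    ((le_max_left _ _).trans ((le_max_right _ _).trans (le_max_right _ _))).trans_lt hk
  have hk4 : 2 / (m * |t' - t|) < k :=
    ((le_max_right _ _).trans ((le_max_right _ _).trans (le_max_right _ _))).trans_lt hk
  have hkk : (0 : ℝ) < k := lt_trans (by positivity) hk1
  obtain ⟨r, ⟨hr0, hr1⟩, hfr⟩ := mem_iUnion₂.1 (hf i k)
  have hfr' : f ∈ osc U i k r := interior_subset hfr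
  have hr2 : r * k < 1 := by
    rw [lt_div_iff₀ (by positivity)] at hr1
    nlinarith
  set s0 := 2 * r / m with hs0
  have hs0pos : 0 < s0 := by positivity
  have hs0η : s0 < η := by
    rw [hs0, div_lt_iff₀ hm0]
    rw [div_lt_iff₀ (by positivity)] at hk3
    nlinarith [mul_pos hm0 hη]
  have hs0t : s0 < |t' - t| := by
    rw [hs0, div_lt_iff₀ hm0]
    rw [div_lt_iff₀ (by positivity)] at hk4
    nlinarith [mul_pos hm0 htpos]
  -- the point t1 at distance s0 from t towards t'
  obtain ⟨t1, ht1, ht1t⟩ : ∃ t1, uIcc t t1 ⊆ I ∧ |t1 - t| = s0 := by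
    rcases lt_or_gt_of_ne htt' with h | h
    · refine ⟨t - s0, ?_, by rw [sub_sub_cancel_left, abs_neg, abs_of_pos hs0pos]⟩
      rw [uIcc_of_ge (by linarith)]
      rw [abs_of_neg (by linarith)] at hs0t
      exact (Icc_subset_Icc (by linarith) le_rfl).trans (hc.interval.out ht' ht)
    · refine ⟨t + s0, ?_, by rw [add_sub_cancel_left, abs_of_pos hs0pos]⟩
      rw [uIcc_of_le (by linarith)]
      rw [abs_of_pos (by linarith)] at hs0t
      exact (Icc_subset_Icc le_rfl (by linarith)).trans (hc.interval.out ht ht')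
  have hle : ∀ u ∈ uIcc t t1, |u - t| ≤ s0 := fun u hu => by
    rw [← ht1t]
    exact abs_sub_left_of_mem_uIcc hu
  have hest' : ∀ u ∈ uIcc t t1, ‖c u - c t - (u - t) • v‖ ≤ (m / 2) * |u - t| ∧
      |value f (c u) - value f (c t) - (u - t) * L| ≤ |u - t| := fun u hu =>
    hest u (ht1 hu) ((hle u hu).trans_lt hs0η)
  -- coordinates
  have hcoord : ∀ w : EuclideanSpace ℝ (Fin d), |w i| ≤ ‖w‖ := fun w => by
    have := PiLp.norm_apply_le w i
    simpa [Real.norm_eq_abs] using this
  have hlen : r ≤ |c t1 i - c t i| := by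
    have h1 := (hest' t1 right_mem_uIcc).1
    have h2 := hcoord (c t1 - c t - (t1 - t) • v)
    have h3 : (c t1 - c t - (t1 - t) • v) i = (c t1 i - c t i) - (t1 - t) * v i := by simp
    rw [h3] at h2
    rw [ht1t] at h1
    have h4 : |(t1 - t) * v i| = s0 * m := by rw [abs_mul, ht1t]
    have h5 : |(t1 - t) * v i| ≤ |c t1 i - c t i| + |(c t1 i - c t i) - (t1 - t) * v i| := by
      have := abs_sub_abs_le_abs_sub ((t1 - t) * v i) (c t1 i - c t i)
      rw [abs_sub_comm ((t1 - t) * v i)] at this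
      linarith
    have h6 : s0 * m = 2 * r := by rw [hs0]; field_simp
    nlinarith
  have hcont : ContinuousOn (fun u => c u i) (uIcc t t1) := by
    have h1 : ContinuousOn c (uIcc t t1) := hc.contDiffOn.continuousOn.mono ht1
    exact (PiLp.continuous_apply 2 (fun _ : Fin d => ℝ) i).comp_continuousOn h1
  have hivt := intermediate_value_uIcc hcont
  have hAB : r ≤ max (c t i) (c t1 i) - min (c t i) (c t1 i) := by
    rw [max_sub_min_eq_abs]
    rwa [abs_sub_comm] at hlen ⊢
  obtain ⟨⟨x, hx, hxc⟩, ⟨y, hy, hyc⟩⟩ := exists_crest hr0 hAB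
  obtain ⟨u1, hu1, hu1x⟩ := hivt hx
  obtain ⟨u2, hu2, hu2y⟩ := hivt hy
  simp only at hu1x hu2y
  have hU : ∀ u ∈ uIcc t t1, c u ∈ closure U := fun u hu => subset_closure (hc.mapsTo (ht1 hu))
  have hcu : ∀ u ∈ uIcc t t1, ‖c u - c t‖ ≤ 2 * s0 := fun u hu => by
    have h1 := (hest' u hu).1
    have h2 : ‖(u - t) • v‖ = |u - t| := by rw [norm_smul, hv1, mul_one, Real.norm_eq_abs]
    have h3 : ‖c u - c t‖ ≤ ‖c u - c t - (u - t) • v‖ + ‖(u - t) • v‖ := by
      have := norm_add_le (c u - c t - (u - t) • v) ((u - t) • v)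
      rwa [sub_add_cancel] at this
    have h4 := hle u hu
    nlinarith [abs_nonneg (u - t)]
  have hfu : ∀ u ∈ uIcc t t1, |value f (c u) - value f (c t)| ≤ (|L| + 1) * s0 := fun u hu => by
    have h1 := (hest' u hu).2
    have h4 := hle u hu
    have h2 : |value f (c u) - value f (c t)| ≤
        |value f (c u) - value f (c t) - (u - t) * L| + |(u - t) * L| := by
      have := abs_add_le (value f (c u) - value f (c t) - (u - t) * L) ((u - t) * L)
      rwa [sub_add_cancel] at this
    rw [abs_mul] at h2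
    nlinarith [abs_nonneg (u - t), abs_nonneg L]
  have hdist : dist (⟨c u1, hU u1 hu1⟩ : closure U) ⟨c u2, hU u2 hu2⟩ ≤ (k + 1) * r := by
    rw [Subtype.dist_eq, dist_eq_norm]
    have h1 : ‖c u1 - c u2‖ ≤ ‖c u1 - c t‖ + ‖c u2 - c t‖ := by
      have := norm_sub_le (c u1 - c t) (c u2 - c t)
      rwa [sub_sub_sub_cancel_right] at this
    have h2 := hcu u1 hu1
    have h3 := hcu u2 hu2
    have h4 : 4 * s0 = (8 / m) * r := by rw [hs0]; ring
    nlinarith
  have hmain := hfr' ⟨c u1, hU u1 hu1⟩ ⟨c u2, hU u2 hu2⟩ hdist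
    (by simp only [hu1x]; exact hxc) (by simp only [hu2y]; exact hyc)
  rw [← value_of_mem f (hU u1 hu1), ← value_of_mem f (hU u2 hu2)] at hmain
  have h1 := hfu u1 hu1
  have h2 := hfu u2 hu2
  rw [abs_le] at h1 h2
  have h3 : (|L| + 1) * s0 * 2 = (4 * (|L| + 1) / m) * r := by rw [hs0]; ring
  nlinarith [h1.1, h1.2, h2.1, h2.2]

/-- For every `d ≥ 1` and every bounded open `U ⊆ ℝ^d`, the set `𝒩(U)` contains a dense `G_δ` subset
of `C(closure U, ℝ)`. -/
theorem result (d : ℕ) (_hd : 1 ≤ d) (U : Set (EuclideanSpace ℝ (Fin d))) (_hU : IsOpen U)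
    (hb : Bornology.IsBounded U) :
    ∃ G : Set C(closure U, ℝ), IsGδ G ∧ Dense G ∧ G ⊆ nowhereSet U := by
  have : CompactSpace (closure U) :=
    isCompact_iff_compactSpace.1 hb.isCompact_closure
  refine ⟨⋂ p : Fin d × ℕ, opn U p.1 p.2, ?_, ?_, ?_⟩
  · exact IsGδ.iInter_of_isOpen fun p => isOpen_opn U p.1 p.2
  · exact dense_iInter_of_isOpen (fun p => isOpen_opn U p.1 p.2) fun p => dense_opn U p.1 p.2
  · intro f hf I c hc t ht
    exact key (fun i k => mem_iInter.1 hf (i, k)) hc ht

end Pool.Agent.Results.MP_3b0c1c_an.GenericAlongCurves
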